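import Pool.Agent.H914R2.OFin

open CategoryTheory AlgebraicGeometry

universe u v v' w

namespace Pool.Agent.Results.MP_93fb11_ag.AllTheories

open Pool.Agent.H914 Pool.Agent.H914.VarClass Pool.Agent.H914.VarClass.Obj

/-- **Semisimplicity of Frobenius in all theories for varieties generated by a family in one
theory.** Let `(X_j, f_j)` be a family of varieties with endomorphisms satisfying the hypotheses of
the theorem on the conjecture D in the Weil cohomology theory `W`, and let `V` be a variety with an
endomorphism `f` whose cohomology in the theory `W` embeds algebraically into a sum of cohomologies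
of products of members of the family. Let `W'` be another Weil cohomology theory in which the
Kunneth projectors of `V` are algebraic and the `f_j^*` are semisimple on the cohomology of the
`X_j`, and suppose that in this theory `f` acts like the Frobenius endomorphism over the field with
`q` elements on the orientation of `V` and, through the product maps, on the classes of cycles on
the products of `V` with products of members of the family. Then `f^*` is semisimple on the
cohomology of `V` in the theory `W'`. -/
theorem result {k : Type u} [Field k] {𝒱 : VarClass k} {ops : CycleOps 𝒱}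
    (W : WeilCohomology.{u, v} ops) (W' : WeilCohomology.{u, v'} ops) {ι : Type w}
    (P : ι → EndVar 𝒱) (q : ℕ) (hq : q ≠ 0)
    (hD : ∀ j, HomEqNum W (P j).X) (hdeg : ∀ j, HasFrobeniusDegree W (P j) q)
    (hss : ∀ j, FrobeniusSemisimple W (P j).X (P j).f)
    (hT : ∀ i j, AlgebraicHoms W (P i) (P j) q)
    (hF : ∀ Q, IsFamilyProduct P Q → FrobeniusOnCycles W Q.X Q.f q)
    (hG : StableSymmetric W.K (familyEigenvalues W P) q)
    (V : EndVar 𝒱) (hV : GeneratedBy W P V.X) (hK : KunnethStd W' V.X)
    (hdeg' : HasFrobeniusDegree W' V q) (hss' : ∀ j, IsSemisimpleMap W' (P j).X (P j).f)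
    (hF' : ∀ Q, IsFamilyProduct P Q → ActsAsFrobenius W' (V.prod Q).X (V.prod Q).f q) :
    IsSemisimpleMap W' V.X V.f :=
  (all_theories W' hq hD hdeg hss hT hF hG V hV hK).2 hdeg' hss' hF'

end Pool.Agent.Results.MP_93fb11_ag.AllTheories
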