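import Pool.Agent.H914R2.UCount
import Pool.Agent.H914R2.UDefs3

open CategoryTheory AlgebraicGeometry Polynomial

universe u v

namespace Pool.Agent.Results.MP_93fb11_ag.BlockCount

open Pool.Agent.H914 Pool.Agent.H914.VarClass Pool.Agent.H914.VarClass.Obj

/-- **The number of non-semisimple eigenvalues of Frobenius is at most a third of the defect of the
Tate conjecture for `X × X`.** Let `X` be a variety of dimension `n` with an endomorphism `f` which
acts like the Frobenius endomorphism over the field with `q` elements on the orientation of `X`
and, through `f × f`, on the classes of cycles on `X × X`. Suppose that the multiplicity of `q ^ n`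
as a root of the characteristic polynomial of `(f × f)^*` on `H^{2n}(X × X)` is at most `ρ + m`,
where `ρ` is a number such that the rank of the group of cycles of codimension `n` on `X × X` modulo
numerical equivalence is at least `ρ`. Let `I` be a finite set of pairs `(i, P)`, where `P` is a
monic irreducible polynomial over the coefficient field such that `f^*` has on `H^i(X)` a Jordan
block of size at least two belonging to the roots of `P`. Then three times the sum of the degrees
of the polynomials `P` is at most `m`. -/
theorem result {k : Type u} [Field k] {𝒱 : VarClass k} {ops : CycleOps 𝒱}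
    (W : WeilCohomology.{u, v} ops) (X : 𝒱.Obj) (f : X ⟶ X) (q : ℕ) (hq : q ≠ 0)
    (hdeg : HasDegree W X f q) (hF : ActsAsFrobenius W (X.prod X) (squareMap f) q) (ρ m : ℕ)
    (hρ : NumericalRankGe ops (X.prod X) X.dim ρ)
    (hm : TateMultiplicityLe W (X.prod X) (squareMap f) q X.dim (ρ + m))
    (I : Finset (ℕ × W.K[X]))
    (hI : ∀ s ∈ I, IsJordanPair W X f s) : 3 * degreeSum I ≤ m :=
  block_count hq hdeg hF hρ hm hI

end Pool.Agent.Results.MP_93fb11_ag.BlockCount
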