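import Pool.Agent.H914R2.ULef

open CategoryTheory AlgebraicGeometry

universe u v

namespace Pool.Agent.Results.MP_93fb11_ag.TateEigenvalue

open Pool.Agent.H914 Pool.Agent.H914.VarClass Pool.Agent.H914.VarClass.Obj

/-- **Semisimplicity for the eigenvalue `q ^ i` if the Tate conjecture in codimension `i` fails by
at most two.** Let `Y` be a variety with a divisor `D` for which hard Lefschetz holds and an
endomorphism `g` which acts like the Frobenius endomorphism over the field with `q` elements on the
orientation and on the classes of cycles on `Y`. If `2 i ≤ dim Y` and the multiplicity of `q ^ i`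
as a root of the characteristic polynomial of `g^*` on `H^{2i}(Y)` is at most `ρ + 2`, where `ρ` is
a number such that the rank of the group of cycles of codimension `i` on `Y` modulo numerical
equivalence is at least `ρ`, then all generalized eigenvectors of `g^*` on `H^{2i}(Y)` for the
eigenvalue `q ^ i` are eigenvectors. -/
theorem result {k : Type u} [Field k] {𝒱 : VarClass k} {ops : CycleOps 𝒱}
    (W : WeilCohomology.{u, v} ops) (Y : 𝒱.Obj) (D : Y.Cycles) (hD : Y.IsCyc 1 D)
    (hHL : HardLefschetz W Y D) (g : Y ⟶ Y) (q : ℕ) (hq : q ≠ 0) (hdeg : HasDegree W Y g q)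
    (hF : ActsAsFrobenius W Y g q) (i : ℕ) (hi : 2 * i ≤ Y.dim) (ρ : ℕ)
    (hρ : NumericalRankGe ops Y i ρ) (hm : TateMultiplicityLe W Y g q i (ρ + 2)) :
    TateEigenSemisimple W Y g q i :=
  eigen_defect hD hHL hq hdeg hF hi hρ hm

end Pool.Agent.Results.MP_93fb11_ag.TateEigenvalue
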